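import Pool.Agent.Helper27.VF.Goals

/-!
# Project VF, packet DER: extension of derivations
-/

set_option autoImplicit false

namespace Pool.Agent.Helper3.VF

open Pool.Agent.Helper27.VF

universe u

theorem der : DerStmt.{u} := by
  classical
  intro A _ B Λ lam h1 h2 h3 h4 M _ _ f hf
  -- the equivalence relation
  let rel : A → A → Prop := fun g g' => ∃ b ∈ B, lam (b * g) = lam g'
  have hrefl : ∀ g, rel g g := fun g => ⟨1, B.one_mem, by rw [one_mul]⟩
  have hsymm : ∀ g g', rel g g' → rel g' g := by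
    rintro g g' ⟨b, hb, h⟩
    refine ⟨b⁻¹, B.inv_mem hb, ?_⟩
    have := h1 b⁻¹ (B.inv_mem hb) _ _ h
    rw [inv_mul_cancel_left] at this
    exact this.symm
  have htrans : ∀ g g' g'', rel g g' → rel g' g'' → rel g g'' := by
    rintro g g' g'' ⟨b, hb, h⟩ ⟨b', hb', h'⟩
    refine ⟨b' * b, B.mul_mem hb' hb, ?_⟩
    rw [mul_assoc, h1 b' hb' _ _ h, h']
  let st : Setoid A := ⟨rel, hrefl, fun {a b} => hsymm a b, fun {a b c} => htrans a b c⟩
  let r : A → A := fun g => (Quotient.mk st g).out
  have hr : ∀ g, rel (r g) g := fun g => Quotient.mk_out (s := st) g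
  have hreq : ∀ g g', rel g g' → r g = r g' := by
    intro g g' h
    have : (Quotient.mk st g) = Quotient.mk st g' := Quotient.sound h
    show (Quotient.mk st g).out = (Quotient.mk st g').out
    rw [this]
  choose β hβB hβ using hr
  have huniq : ∀ b ∈ B, ∀ b' ∈ B, ∀ g : A, lam (b * g) = lam (b' * g) → b = b' := by
    intro b hb b' hb' g h
    have h5 := h1 b'⁻¹ (B.inv_mem hb') _ _ h
    rw [inv_mul_cancel_left, ← mul_assoc] at h5
    have h6 := h2 _ (B.mul_mem (B.inv_mem hb') hb) g h5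
    rw [inv_mul_eq_one] at h6
    exact h6.symm
  have hβmul : ∀ b ∈ B, ∀ g, β (b * g) = b * β g := by
    intro b hb g
    have e : r (b * g) = r g := by
      refine (hreq g (b * g) ⟨b, hb, rfl⟩).symm
    refine huniq _ (hβB _) _ (B.mul_mem hb (hβB g)) (r g) ?_
    have h5 := hβ (b * g)
    rw [e] at h5
    rw [h5, mul_assoc]
    exact (h1 b hb _ _ (hβ g)).symm
  have hβlam : ∀ g g', lam g = lam g' → β g = β g' := by
    intro g g' h
    have e : r g = r g' := hreq g g' ⟨1, B.one_mem, by rw [one_mul]; exact h⟩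
    refine huniq _ (hβB _) _ (hβB _) (r g) ?_
    rw [hβ g, e, hβ g', h]
  let C : A → M := fun g => f ⟨β g, hβB g⟩
  have hC : ∀ (b : B) (g : A), C ((b : A) * g) = f b + (b : A) • C g := by
    intro b g
    show f ⟨β ((b : A) * g), _⟩ = f b + (b : A) • f ⟨β g, _⟩
    rw [← hf]
    congr 1
    exact Subtype.ext (hβmul b b.2 g)
  have hClam : ∀ g g', lam g = lam g' → C g = C g' := by
    intro g g' h
    show f ⟨β g, _⟩ = f ⟨β g', _⟩
    congr 1
    exact Subtype.ext (hβlam g g' h)
  let E : A → A → M := fun g x => g • C (g⁻¹ * x)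
  have hEB : ∀ (g : A) (b : B) (x y : A), E (g * b) y - E (g * b) x = E g y - E g x := by
    intro g b x y
    have key : ∀ z, E (g * b) z = g • ((b : A) • f b⁻¹) + E g z := by
      intro z
      show (g * (b : A)) • C ((g * (b : A))⁻¹ * z) = _ + g • C (g⁻¹ * z)
      rw [mul_inv_rev, mul_assoc, ← Subgroup.coe_inv, hC b⁻¹, mul_smul, smul_add, smul_smul (b : A),
        Subgroup.coe_inv, mul_inv_cancel, one_smul, smul_add]
    rw [key, key]
    abel
  -- the summands
  let ψ : A ⧸ B → A → A → M := fun q x y => E q.out y - E q.out x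
  have hψ : ∀ (g x y : A), ψ (g : A ⧸ B) x y = E g y - E g x := by
    intro g x y
    obtain ⟨b, hb⟩ := QuotientGroup.mk_out_eq_mul B g
    show E ((g : A ⧸ B).out) y - E ((g : A ⧸ B).out) x = _
    rw [hb]
    exact hEB g b x y
  have hfin : ∀ x y : A, (Function.support fun q => ψ q x y).Finite := by
    intro x y
    refine (h3 x y).subset ?_
    intro q hq
    refine ⟨q.out, q.out_eq', ?_⟩
    intro h
    apply hq
    show E q.out y - E q.out x = 0
    have := hClam _ _ h
    show q.out • C (q.out⁻¹ * y) - q.out • C (q.out⁻¹ * x) = 0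
    rw [this, sub_self]
  let φ : A → A → M := fun x y => ∑ᶠ q, ψ q x y
  have hadd : ∀ x y z, φ x y + φ y z = φ x z := by
    intro x y z
    show (∑ᶠ q, ψ q x y) + ∑ᶠ q, ψ q y z = ∑ᶠ q, ψ q x z
    rw [← finsum_add_distrib (hfin x y) (hfin y z)]
    refine finsum_congr fun q => ?_
    show (E q.out y - E q.out x) + (E q.out z - E q.out y) = E q.out z - E q.out x
    abel
  have htr : ∀ z x y, φ (z * x) (z * y) = z • φ x y := by
    intro z x y
    show (∑ᶠ q, ψ q (z * x) (z * y)) = z • ∑ᶠ q, ψ q x y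
    have e1 : (z • ∑ᶠ q, ψ q x y) = ∑ᶠ q, z • ψ q x y :=
      (DistribSMul.toAddMonoidHom M z).map_finsum (hfin x y)
    rw [e1, ← finsum_comp_equiv (MulAction.toPerm z : Equiv.Perm (A ⧸ B))]
    refine finsum_congr fun q => ?_
    induction q using QuotientGroup.induction_on with
    | H g =>
      show ψ (z • (g : A ⧸ B)) (z * x) (z * y) = z • ψ (g : A ⧸ B) x y
      have e2 : z • (g : A ⧸ B) = ((z * g : A) : A ⧸ B) := rfl
      rw [e2, hψ, hψ]
      show (z * g) • C ((z * g)⁻¹ * (z * y)) - (z * g) • C ((z * g)⁻¹ * (z * x)) =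
        z • (g • C (g⁻¹ * y) - g • C (g⁻¹ * x))
      have e3 : ∀ t, (z * g)⁻¹ * (z * t) = g⁻¹ * t := by intro t; group
      rw [e3, e3, smul_sub, mul_smul, mul_smul]
  refine ⟨fun x => φ 1 x - (x • C 1 - C 1), ?_, ?_⟩
  · intro x y
    show φ 1 (x * y) - ((x * y) • C 1 - C 1) =
      φ 1 x - (x • C 1 - C 1) + x • (φ 1 y - (y • C 1 - C 1))
    have e1 := hadd 1 x (x * y)
    have e2 := htr x 1 y
    rw [mul_one] at e2
    rw [← e1, e2, smul_sub, smul_sub, mul_smul]
    abel
  · intro b
    show φ 1 b - ((b : A) • C 1 - C 1) = f b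
    have e1 : φ 1 b = ψ ((1 : A) : A ⧸ B) 1 b := by
      show (∑ᶠ q, ψ q 1 b) = _
      refine finsum_eq_single _ _ ?_
      intro q hq
      induction q using QuotientGroup.induction_on with
      | H g =>
        have hg : g ∉ B := by
          intro hg
          apply hq
          rw [QuotientGroup.eq, mul_one]
          exact B.inv_mem hg
        rw [hψ]
        have := hClam _ _ (h4 b b.2 g hg)
        show g • C (g⁻¹ * b) - g • C (g⁻¹ * 1) = 0
        rw [this, mul_one, sub_self]
    have e2 := hC b 1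
    rw [mul_one] at e2
    rw [e1, hψ]
    show (1 : A) • C ((1 : A)⁻¹ * b) - (1 : A) • C ((1 : A)⁻¹ * 1) - ((b : A) • C 1 - C 1) = f b
    rw [inv_one, one_mul, one_mul, one_smul, one_smul, e2]
    abel

end Pool.Agent.Helper3.VF
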