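import Pool.Agent.Helper27.VF.Goals

/-!
# Project VF, packet ORC
-/

set_option autoImplicit false

namespace Pool.Agent.Helper3.VF

open Pool.Agent.Helper27.VF

universe u

theorem orc (hOra : OraStmt.{u}) (hOrb : OrbStmt.{u}) : OrcStmt.{u} := by
  intro A W _ _ G G₀ w p h k hk g d hd hgd
  by_contra hg
  obtain ⟨e, he, hge⟩ := (hOrb A W G G₀ w p h k hk).2.1 g hg
  have hdS : d ∈ SS A G p k := hd.1
  have hd'S : tr g d ∈ SS A G p k := hgd.1
  have heS : e ∈ SS A G p k := he.1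
  have hgd1 : Inn p g (tr g d).1 := by
    rw [inn_tr_fst, inv_mul_cancel]
    exact hd.2.1
  have hne : e ≠ tr g d := by
    rintro rfl
    exact (inn_snd h heS.1).1 hge hgd1
  obtain ⟨a, b, ha, hb⟩ := hd'S.2.2
  have hbe : Inn p b e.1 := by
    by_contra h1
    have h2 : Inn p b e.2 := (inn_snd h heS.1).2 h1
    exact (hOra A W G G₀ w p h k hk).2 e he (tr g d) hgd hne b ⟨h2, hb⟩
  -- the corners
  have hes : (e.2, e.1) ∈ SS A G p k := SS.swap heS
  have c1 := corner (c := tr g d) (d := (e.2, e.1)) hk hd'S hes (g := g) (h := b)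
    (inn_inter.2 ⟨hgd1, hge⟩) (inn_inter.2 ⟨hb, hbe⟩)
  have c2 := c1.1
  -- translate back to `d`
  have c3 : tr g⁻¹ (cor (tr g d) (e.2, e.1)) ∈ SS A G p k := SS.tr h c2 g⁻¹
  have c4 : Inn p (1 : A) (tr g⁻¹ (cor (tr g d) (e.2, e.1))).1 := by
    rw [inn_tr_fst, inv_inv, mul_one]
    exact inn_inter.2 ⟨hgd1, hge⟩
  have c5 : Lw (tr g⁻¹ (cor (tr g d) (e.2, e.1))) d := by
    constructor
    · intro x hx
      have hx' : g⁻¹⁻¹ • x ∈ (tr g d).1 := hx.1
      have hx2 : g⁻¹ • g⁻¹⁻¹ • x ∈ d.1 := hx'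
      simpa using hx2
    · intro x hx
      show g⁻¹⁻¹ • x ∈ (tr g d).2 ∪ e.1
      left
      show g⁻¹ • g⁻¹⁻¹ • x ∈ d.2
      simpa using hx
  have c6 := hd.2.2 _ c3 c4 c5
  have c7 : cor (tr g d) (e.2, e.1) = tr g d := by
    have := congrArg (tr g) c6
    rwa [tr_tr, mul_inv_cancel, tr_one] at this
  have c8 : (tr g d).1 ⊆ e.2 := by
    intro x hx
    rw [← c7] at hx
    exact hx.2
  have c9 : Inn p (1 : A) e.2 := inn_mono c8 hgd.2.1
  exact (inn_snd h heS.1).1 c9 he.2.1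

end Pool.Agent.Helper3.VF
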